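import Pool.Agent.MVD.StmtsLoc

/-!
Squad MVD, row INX: as INW, with given images of the letters `≡ 0 (mod 3)`.
-/

set_option autoImplicit false

namespace Pool.Agent.MVD.H80

open Pool.Agent.Helper14_MV Pool.Agent.Helper2_MV Pool.Agent.MVD

lemma flatMap_agree {l : List ℕ} {f g : ℕ → List ℕ} (h : ∀ c ∈ l, f c = g c) :
    l.flatMap f = l.flatMap g := by
  induction l with
  | nil => rfl
  | cons c l ih =>
    rw [List.flatMap_cons, List.flatMap_cons, h c (List.mem_cons_self ..),
      ih (fun d hd => h d (List.mem_cons_of_mem _ hd))]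

/-- the part of `Wm` with the labels `e + 1`, `e` in `P` -/
def sk (P : List ℕ) : List ℕ := P.flatMap (fun e => [3 * e + 1, 3 * (e + 1) + 2])

lemma sk_mod {P : List ℕ} {c : ℕ} (hc : c ∈ sk P) : c % 3 ≠ 0 := by
  obtain ⟨e, _, h⟩ := List.mem_flatMap.1 hc
  simp only [List.mem_cons, List.not_mem_nil, or_false] at h
  rcases h with h | h <;> omega

lemma Bw_sk (L : List ℕ) (P : List ℕ) :
    Bw (P.map (fun e => e + 1)) (fun r => if r = 0 then L else [3 * (r - 1) + 1]) = sk P := by
  unfold Bw sk
  rw [List.flatMap_map]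
  apply flatMap_agree
  intro e _
  simp

lemma Wm_eq (P Q L : List ℕ) : Wm P Q L = sk P ++ (L ++ (2 :: sk Q)) := by
  have h1 := Bw_sk L P
  have h2 := Bw_sk L Q
  unfold Bw at h1 h2
  unfold Wm Bw
  rw [List.flatMap_append, List.flatMap_cons, h1, h2]
  simp

theorem inx (hI : InwStmt) : InxStmt := by
  classical
  intro p q D h hD hpq
  obtain ⟨y, hy⟩ := Infinite.exists_notMem_finset (p ++ q).toFinset
  have hyp : y ∉ p := fun hm => hy (by simp [hm])
  have hyq : y ∉ q := fun hm => hy (by simp [hm])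
  obtain ⟨P, Q, g, M, hPQ, hL, hg0, hgz⟩ := hI p q D y hD hpq
  have h1 := hL [0]
  rw [Wm_eq, List.flatMap_append, List.flatMap_append] at h1
  have h2 : ([0] : List ℕ).flatMap g = [y] := by simp [hg0]
  rw [h2, ← List.append_assoc M] at h1
  have h3 := (List.append_cons_inj_of_notMem hyp hyq).1 h1
  obtain ⟨hp, -, hq⟩ := h3
  refine ⟨P, Q, fun c => if c % 3 = 0 then h c else g c, M, hPQ, ?_, ?_, ?_⟩
  · intro L
    rw [Wm_eq, List.flatMap_append, List.flatMap_append]
    have e1 : (sk P).flatMap (fun c => if c % 3 = 0 then h c else g c) = (sk P).flatMap g :=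
      flatMap_agree fun c hc => if_neg (sk_mod hc)
    have e2 : (2 :: sk Q).flatMap (fun c => if c % 3 = 0 then h c else g c) =
        (2 :: sk Q).flatMap g := by
      apply flatMap_agree
      intro c hc
      rcases List.mem_cons.1 hc with rfl | hc
      · rfl
      · exact if_neg (sk_mod hc)
    have hq' : (2 :: sk Q).flatMap g = q := by
      rw [hq]; rfl
    rw [e1, e2, hq']
    conv_lhs => rw [hp]
    rw [List.append_assoc]
  · intro c hc
    exact if_pos hc
  · intro e he
    have : (3 * e + 1) % 3 ≠ 0 := by omega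
    show (if (3 * e + 1) % 3 = 0 then h (3 * e + 1) else g (3 * e + 1)) = _
    rw [if_neg this]
    exact hgz e he

end Pool.Agent.MVD.H80
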